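import Pool.Agent.Work.MP_0da4e0_ag.Ex.GlN

open Matrix Pool.Agent.Work.MP_0da4e0_ag Pool.Agent.Work.MP_0da4e0_ag.Ex

namespace Pool.Agent.Results.MP_0da4e0_ag.ExactCriterion

/-- The exact criterion: let the Betti realization at `σ` of a system of realizations of rank `n` be
polarized, and let `T` be any family of Hodge tensors. Then all Hodge tensors fixed by the invertible
complex combinations of central Hodge endomorphisms which fix `T` are absolutely Hodge if and only if so
are one explicit Hodge tensor `π` with two upper and two lower indices (the orthogonal projector onto the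
Lie algebra of all matrices killing the Hodge tensors), the Hodge endomorphisms, the Hodge
endomorphisms of the exterior powers of order at most `n / 2` killed by the central Hodge endomorphisms,
and the members of `T`. In pure weight `w ≠ 0`, if all central Hodge endomorphisms are scalars, then
all Hodge tensors are absolutely Hodge if and only if so are `π`, the Hodge endomorphisms and
the Hodge endomorphisms of the exterior powers of order at most `n / 2`. -/
theorem result {k : Type} [Field k] [IsAlgClosed k] {ι : Type} [Fintype ι] [DecidableEq ι]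
    (H : RealSys k ι) (σ : k →+* ℂ) (S : Matrix ι ι ℚ) (hS : Polarizes (H.hodge σ) S) :
    ∃ π : Tens ι 2 2 ℚ, IsLieProj (H.hodge σ) π ∧ IsHodge (H.hodge σ) π ∧
      (∀ (I : Type) (m n : I → ℕ) (T : ∀ i, Tens ι (m i) (n i) ℚ),
        (∀ i, IsHodge (H.hodge σ) (T i)) →
        ((∀ (a b : ℕ) (x : Tens ι a b ℚ), IsHodge (H.hodge σ) x →
            (∀ c : GL ι ℂ, IsCentralC (H.hodge σ) (c : Matrix ι ι ℂ) →
              (∀ i, act c (ratT ℂ (T i)) = ratT ℂ (T i)) → act c (ratT ℂ x) = ratT ℂ x) →
            ∃ s : AHTensor H a b, s.betti σ = x) ↔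
          (∃ s : AHTensor H 2 2, s.betti σ = π) ∧
          (∀ A : Matrix ι ι ℚ, IsHodge (H.hodge σ) (matT A) →
            ∃ s : AHTensor H 1 1, s.betti σ = matT A) ∧
          (∀ f : ℕ, 2 ≤ f → 2 * f ≤ Fintype.card ι → ∀ x : Tens ι f f ℚ,
            IsHodge (H.hodge σ) x → Alt2 x →
            (∀ Z : Matrix ι ι ℚ, IsCentral (H.hodge σ) Z → dact Z x = 0) →
            ∃ s : AHTensor H f f, s.betti σ = x) ∧
          ∀ i, ∃ s : AHTensor H (m i) (n i), s.betti σ = T i)) ∧
      (∀ w : ℤ, w ≠ 0 → (∀ p q, (H.hodge σ).V (p, q) ≠ ⊥ → p + q = w) →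
        (∀ Z : Matrix ι ι ℚ, IsCentral (H.hodge σ) Z → ∃ c : ℚ, Z = c • (1 : Matrix ι ι ℚ)) →
        ((∀ (a b : ℕ) (x : Tens ι a b ℚ), IsHodge (H.hodge σ) x →
            ∃ s : AHTensor H a b, s.betti σ = x) ↔
          (∃ s : AHTensor H 2 2, s.betti σ = π) ∧
          ∀ f : ℕ, f = 1 ∨ 2 * f ≤ Fintype.card ι → ∀ x : Tens ι f f ℚ,
            IsHodge (H.hodge σ) x → Alt2 x → ∃ s : AHTensor H f f, s.betti σ = x)) := by
  obtain ⟨π, hπ⟩ := exists_projQ hS
  exact ⟨π, hπ, hπ.isHodge hS, fun I m n T hT => exact H σ S hS hπ T hT,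
    fun w hw hpure hZ => exact_scalar H σ S hS hπ hw hpure hZ⟩

end Pool.Agent.Results.MP_0da4e0_ag.ExactCriterion
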