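import Pool.Agent.Work.MP_0da4e0_ag.Fx.FMain

open Matrix Pool.Agent.Work.MP_0da4e0_ag Pool.Agent.Work.MP_0da4e0_ag.Ex

namespace Pool.Agent.Results.MP_0da4e0_ag.ExactWeilCriterion

/-- The exact Weil criterion: let the Betti realization at `σ` of a system of realizations of rank `n` be
polarized, with Hodge types `(p, q)` only for `|p| ≤ h`. Then all Hodge tensors, of all bidegrees, are
absolutely Hodge if and only if so are all Hodge tensors in the tensor product of the space of all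
tensors of bidegree `(p, q)`, `p, q ≤ 16 n ^ 6`, and the space of the Weil tensors of
bidegree `(a, b)`, `a, b ≤ 32 n ^ 7 + n ^ 3 n! (n h + 1) ^ n`. -/
theorem result {k : Type} [Field k] [IsAlgClosed k] {ι : Type} [Fintype ι] [DecidableEq ι]
    (H : RealSys k ι) (σ : k →+* ℂ) (S : Matrix ι ι ℚ) (hS : Polarizes (H.hodge σ) S)
    (n : ℕ) (hn : n = Fintype.card ι) (h : ℕ)
    (hh : ∀ p q : ℤ, (H.hodge σ).V (p, q) ≠ ⊥ → |p| ≤ h) :
    (∀ (a b : ℕ) (x : Tens ι a b ℚ), IsHodge (H.hodge σ) x → ∃ s : AHTensor H a b, s.betti σ = x) ↔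
      ∀ p q a b : ℕ, p ≤ 16 * n ^ 6 → q ≤ 16 * n ^ 6 →
        a ≤ 32 * n ^ 7 + n ^ 3 * n.factorial * (n * h + 1) ^ n →
        b ≤ 32 * n ^ 7 + n ^ 3 * n.factorial * (n * h + 1) ^ n →
        ∀ x : Tens ι (p + a) (q + b) ℚ, IsHodge (H.hodge σ) x →
          (∀ (u : Fin p → ι) (v : Fin q → ι),
            IsWeil (H.hodge σ) (a := a) (b := b) (fun e => x (Fin.append u e.1, Fin.append v e.2))) →
          ∃ s : AHTensor H (p + a) (q + b), s.betti σ = x := by
  subst hn
  exact exact_weil H σ S hS h hh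

end Pool.Agent.Results.MP_0da4e0_ag.ExactWeilCriterion
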