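import Pool.Agent.Work.MP_0da4e0_ag.Sp.Main

open Matrix Pool.Agent.Work.MP_0da4e0_ag Pool.Agent.Work.MP_0da4e0_ag.Ex
  Pool.Agent.Work.MP_0da4e0_ag.Lin

namespace Pool.Agent.Results.MP_0da4e0_ag.SpanCriterion

/-- The span criterion: let all Betti realizations of a system of realizations `H` of rank `n` be
polarized, with Hodge types (p, q) only for `|p| ≤ h`, let `N = n² n! (n h + 1) ^ n`, and let `s` be one
embedding.
The Hodge tensors of all Betti realizations are `l`-adically absolutely Hodge, up to a finite ambiguity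
of bounded order, if and only if so are those of bidegree (a, b), `a, b ≤ N`, which are Weil tensors, and
for every `l` the `ℚ_l`-linear span of the Hodge tensors of bidegree (2, 2), in the tensors of the `l`-adic
realization, does not depend on the embedding. They are absolutely Hodge, up to a finite ambiguity of
bounded order, if and only if so are these Weil tensors, the `l`-adic spans do not depend on the
embedding and the complex spans of the Hodge tensors of bidegree (2, 2) in the de Rham realization are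
given by one subspace defined over `k`.
Let all Betti realizations be of pure weight `w ≠ 0`. If all Hodge endomorphisms at `s` are scalars, the
condition on Weil tensors is not needed. If all central Hodge endomorphisms at `s` are scalars, it
is needed only for the Hodge endomorphisms at `s`, and all Hodge tensors of all Betti realizations are
(exactly) absolutely Hodge if and only if the two conditions on the spans hold and the Hodge
endomorphisms at `s` of the realization and of its exterior powers of order at most `n / 2` are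
absolutely Hodge. -/
theorem result {k : Type} [Field k] [IsAlgClosed k] {ι : Type} [Fintype ι] [DecidableEq ι]
    (H : RealSys k ι) (hpol : ∀ σ, ∃ S : Matrix ι ι ℚ, Polarizes (H.hodge σ) S) (s : k →+* ℂ)
    (n h N : ℕ) (hn : n = Fintype.card ι)
    (hh : ∀ (t : k →+* ℂ) (p q : ℤ), (H.hodge t).V (p, q) ≠ ⊥ → |p| ≤ h)
    (hN : N = n ^ 2 * n.factorial * (n * h + 1) ^ n) :
    ((∀ σ, ∃ N₀ : ℕ, ∀ (a b : ℕ) (x : Tens ι a b ℚ), IsHodge (H.hodge σ) x →
        IsFinAHet H σ N₀ x) ↔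
      EtSpan H 2 2 ∧ ∀ (t : k →+* ℂ) (a b : ℕ), a ≤ N → b ≤ N → ∀ x : Tens ι a b ℚ,
        IsHodge (H.hodge t) x → IsWeil (H.hodge t) x → ∃ N₀ : ℕ, IsFinAHet H t N₀ x) ∧
    ((∀ σ, ∃ N₀ : ℕ, ∀ (a b : ℕ) (x : Tens ι a b ℚ), IsHodge (H.hodge σ) x →
        IsFinAH H σ N₀ x) ↔
      (EtSpan H 2 2 ∧ DRSpan H 2 2) ∧ ∀ (t : k →+* ℂ) (a b : ℕ), a ≤ N → b ≤ N →
        ∀ x : Tens ι a b ℚ, IsHodge (H.hodge t) x → IsWeil (H.hodge t) x →
          ∃ N₀ : ℕ, IsFinAH H t N₀ x) ∧
    (∀ w : ℤ, w ≠ 0 → (∀ (t : k →+* ℂ) (p q : ℤ), (H.hodge t).V (p, q) ≠ ⊥ → p + q = w) →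
      ((∀ A : Matrix ι ι ℚ, IsHodge (H.hodge s) (matT A) → ∃ c : ℚ, A = c • (1 : Matrix ι ι ℚ)) →
        ((∀ σ, ∃ N₀ : ℕ, ∀ (a b : ℕ) (x : Tens ι a b ℚ), IsHodge (H.hodge σ) x →
          IsFinAHet H σ N₀ x) ↔ EtSpan H 2 2) ∧
        ((∀ σ, ∃ N₀ : ℕ, ∀ (a b : ℕ) (x : Tens ι a b ℚ), IsHodge (H.hodge σ) x →
          IsFinAH H σ N₀ x) ↔ EtSpan H 2 2 ∧ DRSpan H 2 2)) ∧
      ((∀ Z : Matrix ι ι ℚ, IsCentral (H.hodge s) Z → ∃ c : ℚ, Z = c • (1 : Matrix ι ι ℚ)) →
        ((∀ σ, ∃ N₀ : ℕ, ∀ (a b : ℕ) (x : Tens ι a b ℚ), IsHodge (H.hodge σ) x →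
          IsFinAHet H σ N₀ x) ↔
          EtSpan H 2 2 ∧ ∀ A : Matrix ι ι ℚ, IsHodge (H.hodge s) (matT A) →
            ∃ N₀ : ℕ, IsFinAHet H s N₀ (matT A)) ∧
        ((∀ σ, ∃ N₀ : ℕ, ∀ (a b : ℕ) (x : Tens ι a b ℚ), IsHodge (H.hodge σ) x →
          IsFinAH H σ N₀ x) ↔
          (EtSpan H 2 2 ∧ DRSpan H 2 2) ∧ ∀ A : Matrix ι ι ℚ, IsHodge (H.hodge s) (matT A) →
            ∃ N₀ : ℕ, IsFinAH H s N₀ (matT A)) ∧
        ((∀ (σ : k →+* ℂ) (a b : ℕ) (x : Tens ι a b ℚ), IsHodge (H.hodge σ) x →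
            ∃ t : AHTensor H a b, t.betti σ = x) ↔
          (EtSpan H 2 2 ∧ DRSpan H 2 2) ∧
            ∀ f : ℕ, f = 1 ∨ 2 * f ≤ n → ∀ x : Tens ι f f ℚ, IsHodge (H.hodge s) x →
              Alt2 x → ∃ t : AHTensor H f f, t.betti s = x))) := by
  subst hn
  subst hN
  exact ⟨span_et hpol h hh, span_all hpol h hh,
    fun w hw hpure => ⟨fun hE => scalar_both hpol hw hpure s hE,
      fun hZ => ⟨center_et hpol hw hpure s hZ, center_fin hpol hw hpure s hZ,
        center_exact hpol hw hpure s hZ⟩⟩⟩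

end Pool.Agent.Results.MP_0da4e0_ag.SpanCriterion
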