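import Pool.Agent.Work.MP_0da4e0_ag.WeilMain

open Matrix Pool.Agent.Work.MP_0da4e0_ag

namespace Pool.Agent.Results.MP_0da4e0_ag.WeilCriterion

/-- The Weil criterion: let the Betti realization at `σ` of a system of realizations of rank `n` be
polarized, with Hodge types (p, q) only for `|p| ≤ h`. Then all Hodge tensors are absolutely Hodge up to
a finite ambiguity of bounded order if and only if so are one explicit Hodge tensor `π` with two upper and
two lower indices (the orthogonal projector onto the Lie algebra of all matrices killing the Hodge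
tensors) and the Hodge tensors of bidegree (a, b) with `a, b ≤ n² n! (n h + 1) ^ n` which are Weil
tensors. -/
theorem result {k : Type} [Field k] [IsAlgClosed k] {ι : Type} [Fintype ι] [DecidableEq ι]
    (H : RealSys k ι) (σ : k →+* ℂ) (S : Matrix ι ι ℚ) (hS : Polarizes (H.hodge σ) S)
    (n h N : ℕ) (hn : n = Fintype.card ι)
    (hh : ∀ p q : ℤ, (H.hodge σ).V (p, q) ≠ ⊥ → |p| ≤ h)
    (hN : N = n ^ 2 * n.factorial * (n * h + 1) ^ n) :
    ∃ π : Tens ι 2 2 ℚ, IsLieProj (H.hodge σ) π ∧ IsHodge (H.hodge σ) π ∧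
      ((∃ N₀ : ℕ, ∀ (a b : ℕ) (x : Tens ι a b ℚ), IsHodge (H.hodge σ) x → IsFinAH H σ N₀ x) ↔
        (∃ N₀ : ℕ, IsFinAH H σ N₀ π) ∧
        ∀ a b : ℕ, a ≤ N → b ≤ N → ∀ x : Tens ι a b ℚ, IsHodge (H.hodge σ) x →
          IsWeil (H.hodge σ) x → ∃ N₀ : ℕ, IsFinAH H σ N₀ x) := by
  subst hn
  subst hN
  obtain ⟨π, hπ⟩ := exists_projQ hS
  exact ⟨π, hπ, hπ.isHodge hS, weil_criterion H σ S hS h hh hπ⟩

end Pool.Agent.Results.MP_0da4e0_ag.WeilCriterion
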